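import Mathlib

/-!
# Hook lengths of the cells of the Young diagram of a partition

`part l i` is the `i`-th largest part (`i ≥ 1`), `conj l j` the number of parts `≥ j`. The number of
cells with hook length two is the number of parts `s ≥ 2` (counted without multiplicity) for which
`s - 1` is not a part, plus the number of parts which occur at least twice.
-/

set_option autoImplicit false

namespace Helper3K9.HK

open Finset

/-- the `i`-th largest part of the partition, `i = 1, 2, …`; zero if there are fewer parts -/
def part {n : ℕ} (l : n.Partition) (i : ℕ) : ℕ := (l.parts.sort (· ≥ ·)).getD (i - 1) 0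

/-- the `j`-th part of the conjugate partition: the number of parts `≥ j` -/
def conj {n : ℕ} (l : n.Partition) (j : ℕ) : ℕ := (l.parts.filter (j ≤ ·)).card

/-- the cells `(i, j)` of the Young diagram: `i, j ≥ 1` and `j ≤ λ_i` -/
def cells {n : ℕ} (l : n.Partition) : Finset (ℕ × ℕ) :=
  {c ∈ Icc 1 n ×ˢ Icc 1 n | c.2 ≤ part l c.1}

/-- the hook length of the cell `(i, j)` -/
def hook {n : ℕ} (l : n.Partition) (i j : ℕ) : ℤ :=
  (part l i : ℤ) - j + conj l j - i + 1

/-- a sorted list: the element number `i` is at least `j` iff at least `i + 1` elements are -/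
theorem sorted_get (L : List ℕ) (hL : L.Pairwise (· ≥ ·)) (i j : ℕ) (hj : 1 ≤ j) :
    j ≤ L.getD i 0 ↔ i < (L.filter (j ≤ ·)).length := by
  induction L generalizing i with
  | nil => simp; omega
  | cons a L ih =>
    rw [List.pairwise_cons] at hL
    by_cases ha : j ≤ a
    · rw [List.filter_cons_of_pos (by simpa using ha)]
      cases i with
      | zero => simp [ha]
      | succ i =>
        rw [List.getD_cons_succ, ih hL.2, List.length_cons]
        omega
    · have h0 : ∀ x ∈ L, ¬ j ≤ x := fun x hx h => ha (h.trans (hL.1 x hx))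
      have h1 : L.filter (j ≤ ·) = [] := by
        rw [List.filter_eq_nil_iff]
        intro x hx
        simpa using h0 x hx
      rw [List.filter_cons_of_neg (by simpa using ha), h1]
      simp only [List.length_nil, not_lt_zero, iff_false]
      cases i with
      | zero => simpa using ha
      | succ i =>
        rw [List.getD_cons_succ]
        intro h
        rw [ih hL.2, h1] at h
        simp at h

theorem le_part {n : ℕ} (l : n.Partition) (i j : ℕ) (hi : 1 ≤ i) (hj : 1 ≤ j) :
    j ≤ part l i ↔ i ≤ conj l j := by
  unfold part conj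
  rw [sorted_get _ (l.parts.pairwise_sort _) _ _ hj]
  have h1 : (l.parts.filter (j ≤ ·)).card =
      ((l.parts.sort (· ≥ ·)).filter (j ≤ ·)).length := by
    conv_lhs => rw [← l.parts.sort_eq (· ≥ ·)]
    rw [Multiset.filter_coe, Multiset.coe_card]
  rw [h1]
  omega

theorem filter_succ (M : Multiset ℕ) (j : ℕ) :
    (M.filter (j ≤ ·)).card = (M.filter (j + 1 ≤ ·)).card + M.count j := by
  induction M using Multiset.induction_on with
  | empty => simp
  | cons a M ih =>
    simp only [Multiset.filter_cons, Multiset.count_cons, Multiset.card_add]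
    rw [ih]
    rcases lt_trichotomy j a with h | h | h
    · rw [if_pos h.le, if_pos (by omega), if_neg (by omega)]
      simp only [Multiset.card_singleton]
      omega
    · rw [if_pos h.le, if_neg (by omega), if_pos (by omega)]
      simp only [Multiset.card_singleton, Multiset.card_zero]
      omega
    · rw [if_neg (by omega), if_neg (by omega), if_neg (by omega)]
      simp only [Multiset.card_zero]
      omega

theorem conj_succ {n : ℕ} (l : n.Partition) (j : ℕ) :
    conj l j = conj l (j + 1) + l.parts.count j :=
  filter_succ l.parts j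

theorem conj_le {n : ℕ} (l : n.Partition) (j : ℕ) : conj l j ≤ n := by
  have h1 : conj l j ≤ l.parts.card := Multiset.card_le_card (Multiset.filter_le _ _)
  refine h1.trans ?_
  conv_rhs => rw [← l.parts_sum]
  have h2 := Multiset.card_nsmul_le_sum (s := l.parts) (a := 1) (fun x hx => l.parts_pos hx)
  simpa using h2

/-- the number of cells with hook length two -/
theorem card_hook_two {n : ℕ} (l : n.Partition) :
    #{c ∈ cells l | hook l c.1 c.2 = 2} =
      #{s ∈ Icc 2 n | s ∈ l.parts ∧ s - 1 ∉ l.parts} + #{s ∈ Icc 1 n | 2 ≤ l.parts.count s} := by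
  have hc : ∀ i j : ℕ, (i, j) ∈ cells l ↔ 1 ≤ i ∧ 1 ≤ j ∧ i ≤ conj l j ∧ j ≤ n := by
    intro i j
    unfold cells
    simp only [mem_filter, mem_product, mem_Icc]
    constructor
    · rintro ⟨⟨⟨h1, h2⟩, h3, h4⟩, h5⟩
      exact ⟨h1, h3, (le_part l i j h1 h3).1 h5, h4⟩
    · rintro ⟨h1, h2, h3, h4⟩
      exact ⟨⟨⟨h1, h3.trans (conj_le l j)⟩, h2, h4⟩, (le_part l i j h1 h2).2 h3⟩
  have hsplit : {c ∈ cells l | hook l c.1 c.2 = 2} =
      {c ∈ cells l | part l c.1 = c.2 + 1 ∧ conj l c.2 = c.1} ∪
      {c ∈ cells l | part l c.1 = c.2 ∧ conj l c.2 = c.1 + 1} := by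
    ext ⟨i, j⟩
    simp only [mem_filter, mem_union, hc]
    constructor
    · rintro ⟨⟨h1, h2, h3, h4⟩, h5⟩
      have h6 := (le_part l i j h1 h2).2 h3
      unfold hook at h5
      by_cases h7 : part l i = j + 1
      · left
        exact ⟨⟨h1, h2, h3, h4⟩, h7, by omega⟩
      · right
        exact ⟨⟨h1, h2, h3, h4⟩, by omega, by omega⟩
    · rintro (⟨h0, h5, h6⟩ | ⟨h0, h5, h6⟩)
      · refine ⟨h0, ?_⟩
        unfold hook
        rw [h5, h6]
        push_cast
        ring
      · refine ⟨h0, ?_⟩
        unfold hook
        rw [h5, h6]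
        push_cast
        ring
  rw [hsplit, card_union_of_disjoint]
  · congr 1
    · symm
      refine card_bij (fun s _ => (conj l (s - 1), s - 1)) ?_ ?_ ?_
      · intro s hs
        simp only [mem_filter, mem_Icc] at hs
        obtain ⟨⟨h1, h2⟩, h3, h4⟩ := hs
        obtain ⟨j, rfl⟩ : ∃ j, s = j + 1 := ⟨s - 1, by omega⟩
        rw [Nat.add_sub_cancel] at h4 ⊢
        have h5 := conj_succ l j
        have h6 := conj_succ l (j + 1)
        have h7 : l.parts.count j = 0 := Multiset.count_eq_zero.2 h4
        have h8 : 1 ≤ l.parts.count (j + 1) := Multiset.one_le_count_iff_mem.2 h3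
        have h9 : 1 ≤ conj l j := by omega
        rw [mem_filter, hc]
        refine ⟨⟨h9, by omega, le_refl _, by omega⟩, ?_, rfl⟩
        have h10 := (le_part l (conj l j) (j + 1) h9 (by omega)).2 (by omega)
        have h11 := (le_part l (conj l j) (j + 1 + 1) h9 (by omega)).not.2 (by omega)
        simp only
        omega
      · intro s hs s' hs' h
        simp only [mem_filter, mem_Icc] at hs hs'
        rw [Prod.mk.injEq] at h
        omega
      · rintro ⟨i, j⟩ hij
        rw [mem_filter, hc] at hij
        obtain ⟨⟨h1, h2, h3, h4⟩, h5, h6⟩ := hij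
        simp only at h5 h6
        have h7 := (le_part l i (j + 1) h1 (by omega)).1 h5.ge
        have h8 := (le_part l i (j + 1 + 1) h1 (by omega)).not.1 (by omega)
        have h9 := conj_succ l j
        have h10 := conj_succ l (j + 1)
        have h11 : l.parts.count j = 0 := by omega
        have h12 : 1 ≤ l.parts.count (j + 1) := by omega
        have h13 : j + 1 ∈ l.parts := Multiset.one_le_count_iff_mem.1 h12
        refine ⟨j + 1, ?_, ?_⟩
        · simp only [mem_filter, mem_Icc]
          exact ⟨⟨by omega, Nat.Partition.le_of_mem_parts h13⟩, h13,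
            Multiset.count_eq_zero.1 h11⟩
        · simp only [Nat.add_sub_cancel]
          rw [h6]
    · symm
      refine card_bij (fun s _ => (conj l s - 1, s)) ?_ ?_ ?_
      · intro s hs
        simp only [mem_filter, mem_Icc] at hs
        obtain ⟨⟨h1, h2⟩, h3⟩ := hs
        have h5 := conj_succ l s
        rw [mem_filter, hc]
        refine ⟨⟨by omega, by omega, by omega, by omega⟩, ?_, ?_⟩
        · have h10 := (le_part l (conj l s - 1) s (by omega) (by omega)).2 (by omega)
          have h11 := (le_part l (conj l s - 1) (s + 1) (by omega) (by omega)).not.2 (by omega)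
          simp only
          omega
        · simp only
          omega
      · intro s hs s' hs' h
        rw [Prod.mk.injEq] at h
        exact h.2
      · rintro ⟨i, j⟩ hij
        rw [mem_filter, hc] at hij
        obtain ⟨⟨h1, h2, h3, h4⟩, h5, h6⟩ := hij
        simp only at h5 h6
        have h8 := (le_part l i (j + 1) h1 (by omega)).not.1 (by omega)
        have h9 := conj_succ l j
        refine ⟨j, ?_, ?_⟩
        · simp only [mem_filter, mem_Icc]
          exact ⟨⟨by omega, by omega⟩, by omega⟩
        · rw [h6]
          simp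
  · rw [disjoint_left]
    rintro ⟨i, j⟩ h1 h2
    simp only [mem_filter] at h1 h2
    omega

end Helper3K9.HK
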