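import Pool.Agent.Helper3K9.HK.W

/-!
# The number of hooks of length two in all `t`-regular partitions of `n` increases with `t`
-/

set_option autoImplicit false

namespace Helper3K9.HK

open Finset PowerSeries Nat.Partition

theorem sum_ind (s : Finset ℕ) (Q : ℕ → Prop) (e : ℕ → ℕ) (m : ℕ)
    [DecidablePred fun i => Q i ∧ m = e i]
    [Decidable (∃ i ∈ s, Q i ∧ m = e i)]
    (he : ∀ i ∈ s, ∀ j ∈ s, e i = e j → i = j) :
    ∑ i ∈ s, (if Q i ∧ m = e i then (1 : ℤ) else 0) =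
      if ∃ i ∈ s, Q i ∧ m = e i then 1 else 0 := by
  split_ifs with h
  · obtain ⟨i, hi, hQ, hm⟩ := h
    rw [sum_eq_single i]
    · rw [if_pos ⟨hQ, hm⟩]
    · intro j hj hji
      rw [if_neg]
      rintro ⟨-, h2⟩
      exact hji (he j hj i hi (h2.symm.trans hm))
    · exact fun h => absurd hi h
  · refine sum_eq_zero fun i hi => ?_
    rw [if_neg]
    exact fun h2 => h ⟨i, hi, h2⟩

/-- the coefficients of the correction term -/
def c (t m : ℕ) : ℤ :=
  (if 1 ≤ m ∧ t ∣ m then 1 else 0) + (if 1 ≤ m ∧ 2 * t ∣ m then 1 else 0) -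
    (if 2 * t ∣ m + 1 then 1 else 0) - (if 2 ≤ m ∧ 2 * t ∣ m - 1 then 1 else 0)

/-- the coefficients of `2 X ^ 2 / (1 - X ^ 2)` -/
def al (m : ℕ) : ℤ := if 2 ≤ m ∧ Even m then 2 else 0

theorem coeff_A (t : ℕ) (ht : 2 ≤ t) (N m : ℕ) (hm : m ≤ N) :
    coeff m (A (fun i => ¬ t ∣ i) N) = al m - c t m := by
  classical
  unfold A
  have h1 : ∀ s ∈ Icc 2 N, coeff m (if ¬ t ∣ s then
      X ^ s * (1 - if ¬ t ∣ (s - 1) then X ^ (s - 1) else 0) else 0 : ℤ⟦X⟧) =
      (if ¬ t ∣ s ∧ m = s then 1 else 0) -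
      (if (¬ t ∣ s ∧ ¬ t ∣ (s - 1)) ∧ m = 2 * s - 1 then 1 else 0) := by
    intro s hs
    rw [mem_Icc] at hs
    have h2 : s + (s - 1) = 2 * s - 1 := by omega
    by_cases h3 : t ∣ s
    · simp [h3]
    · by_cases h4 : t ∣ (s - 1)
      · simp [h3, h4, coeff_X_pow]
      · rw [if_pos h3, if_pos h4, mul_sub, mul_one, ← pow_add, h2, map_sub, coeff_X_pow,
          coeff_X_pow]
        simp [h3, h4]
  have h2 : ∀ s ∈ Icc 1 N, coeff m (if ¬ t ∣ s then X ^ (2 * s) else 0 : ℤ⟦X⟧) =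
      (if ¬ t ∣ s ∧ m = 2 * s then 1 else 0) := by
    intro s _
    by_cases h3 : t ∣ s
    · simp [h3]
    · simp [h3, coeff_X_pow]
  rw [map_add, map_sum, map_sum, sum_congr rfl h1, sum_congr rfl h2, sum_sub_distrib,
    sum_ind (Icc 2 N) (fun s => ¬ t ∣ s) (fun s => s) m (fun i _ j _ h => h),
    sum_ind (Icc 2 N) (fun s => ¬ t ∣ s ∧ ¬ t ∣ (s - 1)) (fun s => 2 * s - 1) m
      (fun i hi j hj h => by
        rw [mem_Icc] at hi hj
        omega),
    sum_ind (Icc 1 N) (fun s => ¬ t ∣ s) (fun s => 2 * s) m (fun i _ j _ h => by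
      omega)]
  unfold al c
  rcases Nat.even_or_odd' m with ⟨k, rfl | rfl⟩
  · have e1 : (∃ i ∈ Icc 2 N, ¬ t ∣ i ∧ 2 * k = i) ↔ 1 ≤ k ∧ ¬ t ∣ 2 * k := by
      simp only [mem_Icc]
      constructor
      · rintro ⟨i, h3, h4, rfl⟩
        exact ⟨by omega, h4⟩
      · rintro ⟨h3, h4⟩
        exact ⟨2 * k, ⟨by omega, hm⟩, h4, rfl⟩
    have e2 : ¬ ∃ i ∈ Icc 2 N, (¬ t ∣ i ∧ ¬ t ∣ (i - 1)) ∧ 2 * k = 2 * i - 1 := by
      simp only [mem_Icc]
      rintro ⟨i, h3, h4, h5⟩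
      omega
    have e3 : (∃ i ∈ Icc 1 N, ¬ t ∣ i ∧ 2 * k = 2 * i) ↔ 1 ≤ k ∧ ¬ t ∣ k := by
      simp only [mem_Icc]
      constructor
      · rintro ⟨i, h3, h4, h5⟩
        obtain rfl : i = k := by omega
        exact ⟨h3.1, h4⟩
      · rintro ⟨h3, h4⟩
        exact ⟨k, ⟨h3, by omega⟩, h4, rfl⟩
    have e4 : ¬ 2 * t ∣ 2 * k + 1 := by
      rintro ⟨a, ha⟩
      have : 2 * k + 1 = 2 * (t * a) := by rw [ha]; ring
      omega
    have e5 : ¬ (2 ≤ 2 * k ∧ 2 * t ∣ 2 * k - 1) := by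
      rintro ⟨h3, a, ha⟩
      have : 2 * k - 1 = 2 * (t * a) := by rw [ha]; ring
      omega
    have e6 : 2 * t ∣ 2 * k ↔ t ∣ k := Nat.mul_dvd_mul_iff_left (by norm_num)
    have e7 : Even (2 * k) := even_two_mul k
    simp only [e1, e3, if_neg e2, if_neg e4, if_neg e5, e6, e7]
    by_cases hk : 1 ≤ k
    · have hk2 : 2 ≤ 2 * k := by omega
      have hk3 : 1 ≤ 2 * k := by omega
      by_cases h3 : t ∣ k
      · have h4 : t ∣ 2 * k := Dvd.dvd.mul_left h3 2
        simp [hk, hk2, hk3, h3, h4]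
      · by_cases h4 : t ∣ 2 * k
        · simp [hk, hk2, hk3, h3, h4]
        · simp [hk, hk2, hk3, h3, h4]
    · obtain rfl : k = 0 := by omega
      simp
  · have e1 : (∃ i ∈ Icc 2 N, ¬ t ∣ i ∧ 2 * k + 1 = i) ↔ 1 ≤ k ∧ ¬ t ∣ 2 * k + 1 := by
      simp only [mem_Icc]
      constructor
      · rintro ⟨i, h3, h4, rfl⟩
        exact ⟨by omega, h4⟩
      · rintro ⟨h3, h4⟩
        exact ⟨2 * k + 1, ⟨by omega, hm⟩, h4, rfl⟩
    have e2 : (∃ i ∈ Icc 2 N, (¬ t ∣ i ∧ ¬ t ∣ (i - 1)) ∧ 2 * k + 1 = 2 * i - 1) ↔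
        1 ≤ k ∧ ¬ t ∣ k + 1 ∧ ¬ t ∣ k := by
      simp only [mem_Icc]
      constructor
      · rintro ⟨i, h3, ⟨h4, h5⟩, h6⟩
        obtain rfl : i = k + 1 := by omega
        exact ⟨by omega, h4, h5⟩
      · rintro ⟨h3, h4, h5⟩
        exact ⟨k + 1, ⟨by omega, by omega⟩, ⟨h4, h5⟩, by omega⟩
    have e3 : ¬ ∃ i ∈ Icc 1 N, ¬ t ∣ i ∧ 2 * k + 1 = 2 * i := by
      rintro ⟨i, h3, h4, h5⟩
      omega
    have e4 : 2 * t ∣ 2 * k + 1 + 1 ↔ t ∣ k + 1 := by
      rw [show 2 * k + 1 + 1 = 2 * (k + 1) by ring]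
      exact Nat.mul_dvd_mul_iff_left (by norm_num)
    have e5 : 2 ≤ 2 * k + 1 ∧ 2 * t ∣ 2 * k + 1 - 1 ↔ 1 ≤ k ∧ t ∣ k := by
      rw [Nat.add_sub_cancel, Nat.mul_dvd_mul_iff_left (by norm_num)]
      constructor
      · rintro ⟨h3, h4⟩
        exact ⟨by omega, h4⟩
      · rintro ⟨h3, h4⟩
        exact ⟨by omega, h4⟩
    have e6 : ¬ 2 * t ∣ 2 * k + 1 := by
      rintro ⟨a, ha⟩
      have : 2 * k + 1 = 2 * (t * a) := by rw [ha]; ring
      omega
    have e7 : ¬ Even (2 * k + 1) := by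
      rw [Nat.not_even_iff_odd]
      exact odd_two_mul_add_one k
    have e8 : 1 ≤ 2 * k + 1 := by omega
    have e9 : ¬ (t ∣ k + 1 ∧ t ∣ k) := by
      rintro ⟨h3, h4⟩
      have := (Nat.dvd_add_right h4).1 h3
      have := Nat.le_of_dvd one_pos this
      omega
    simp only [e1, e2, if_neg e3, e4, e5, e6, e7, e8]
    by_cases hk : 1 ≤ k
    · by_cases h3 : t ∣ k
      · have h4 : ¬ t ∣ k + 1 := fun h => e9 ⟨h, h3⟩
        by_cases h5 : t ∣ 2 * k + 1 <;> simp [hk, h3, h4, h5]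
      · by_cases h4 : t ∣ k + 1
        · by_cases h5 : t ∣ 2 * k + 1 <;> simp [hk, h3, h4, h5]
        · by_cases h5 : t ∣ 2 * k + 1 <;> simp [hk, h3, h4, h5]
    · obtain rfl : k = 0 := by omega
      have h3 : ¬ t = 1 := by omega
      simp [h3]

/-- the correction term -/
noncomputable def C (t N : ℕ) : ℤ⟦X⟧ :=
  ∑ j ∈ Icc 1 (2 * N), X ^ (t * j) +
    ∑ j ∈ Icc 1 N, (X ^ (2 * t * j) - X ^ (2 * t * j - 1) - X ^ (2 * t * j + 1))

theorem coeff_C (t : ℕ) (ht : 2 ≤ t) (N m : ℕ) (hm : m ≤ N) :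
    coeff m (C t N) = c t m := by
  classical
  unfold C c
  have key : ∀ (s : Finset ℕ) (e : ℕ → ℕ), (∀ i ∈ s, ∀ j ∈ s, e i = e j → i = j) →
      ∑ i ∈ s, coeff m (X ^ (e i) : ℤ⟦X⟧) = if ∃ i ∈ s, m = e i then 1 else 0 := by
    intro s e he
    have := sum_ind s (fun _ => True) e m he
    simp only [true_and] at this
    rw [← this]
    exact sum_congr rfl fun i _ => coeff_X_pow _ _
  rw [map_add, map_sum, map_sum]
  simp only [map_sub]
  rw [sum_sub_distrib, sum_sub_distrib]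
  rw [key (Icc 1 (2 * N)) (fun j => t * j) fun i _ j _ h => Nat.eq_of_mul_eq_mul_left (by omega) h,
    key (Icc 1 N) (fun j => 2 * t * j) fun i _ j _ h => Nat.eq_of_mul_eq_mul_left (by omega) h,
    key (Icc 1 N) (fun j => 2 * t * j - 1) (fun i hi j hj h => by
      rw [mem_Icc] at hi hj
      have h1 : 0 < 2 * t * i := Nat.mul_pos (by omega) (by omega)
      have h2 : 0 < 2 * t * j := Nat.mul_pos (by omega) (by omega)
      exact Nat.eq_of_mul_eq_mul_left (show 0 < 2 * t by omega) (by omega)),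
    key (Icc 1 N) (fun j => 2 * t * j + 1) (fun i hi j hj h => by
      exact Nat.eq_of_mul_eq_mul_left (show 0 < 2 * t by omega) (by omega))]
  have e1 : (∃ i ∈ Icc 1 (2 * N), m = t * i) ↔ 1 ≤ m ∧ t ∣ m := by
    simp only [mem_Icc]
    constructor
    · rintro ⟨i, h1, rfl⟩
      exact ⟨Nat.mul_pos (by omega) (by omega), dvd_mul_right _ _⟩
    · rintro ⟨h1, i, rfl⟩
      refine ⟨i, ⟨Nat.pos_of_mul_pos_left h1, ?_⟩, rfl⟩
      nlinarith
  have e2 : (∃ i ∈ Icc 1 N, m = 2 * t * i) ↔ 1 ≤ m ∧ 2 * t ∣ m := by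
    simp only [mem_Icc]
    constructor
    · rintro ⟨i, h1, rfl⟩
      exact ⟨Nat.mul_pos (by omega) (by omega), dvd_mul_right _ _⟩
    · rintro ⟨h1, i, rfl⟩
      refine ⟨i, ⟨Nat.pos_of_mul_pos_left h1, ?_⟩, rfl⟩
      nlinarith
  have e3 : (∃ i ∈ Icc 1 N, m = 2 * t * i - 1) ↔ 2 * t ∣ m + 1 := by
    simp only [mem_Icc]
    constructor
    · rintro ⟨i, h1, rfl⟩
      have h2 : 0 < 2 * t * i := by
        have := h1.1
        positivity
      rw [Nat.sub_add_cancel h2]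
      exact dvd_mul_right _ _
    · rintro ⟨i, hi⟩
      have h2 : 1 ≤ i := by
        rcases Nat.eq_zero_or_pos i with rfl | h
        · omega
        · exact h
      refine ⟨i, ⟨h2, ?_⟩, by omega⟩
      nlinarith
  have e4 : (∃ i ∈ Icc 1 N, m = 2 * t * i + 1) ↔ 2 ≤ m ∧ 2 * t ∣ m - 1 := by
    simp only [mem_Icc]
    constructor
    · rintro ⟨i, h1, rfl⟩
      have h2 : 0 < 2 * t * i := by
        have := h1.1
        positivity
      refine ⟨by omega, ?_⟩
      rw [Nat.add_sub_cancel]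
      exact dvd_mul_right _ _
    · rintro ⟨h1, i, hi⟩
      have h2 : 1 ≤ i := by
        rcases Nat.eq_zero_or_pos i with rfl | h
        · omega
        · exact h
      refine ⟨i, ⟨h2, ?_⟩, by omega⟩
      have h3 : i ≤ 2 * t * i := Nat.le_mul_of_pos_left _ (by omega)
      omega
  simp only [e1, e2, e3, e4]
  ring

/-- one summand of the difference of the correction terms -/
theorem NN_E (u B j : ℕ) (H : ℤ⟦X⟧) (hU : NN ((1 - X) * H))
    (hU2 : NN ((1 - X ^ 2) * ((1 - X) * H))) (hUt : NN ((1 - X ^ u) * ((1 - X) * H))) :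
    NN ((X ^ B - X ^ (B + 2 * j + 1) + 2 * (X ^ (B + u + 1) - X ^ (B + u + 2 * j + 3)) -
      (X ^ (B + u) - X ^ (B + u + 2 * j + 2)) -
      (X ^ (B + u + 2) - X ^ (B + u + 2 * j + 4))) * H) := by
  have h1 : (1 - X) * ∑ i ∈ range (2 * j), X ^ i = 1 - (X : ℤ⟦X⟧) ^ (2 * j) :=
    mul_neg_geom_sum _ _
  have h2 : (1 - X ^ 2) * ∑ i ∈ range (j + 1), (X ^ 2) ^ i = 1 - ((X : ℤ⟦X⟧) ^ 2) ^ (j + 1) :=
    mul_neg_geom_sum _ _
  have n1 : NN (∑ i ∈ range (2 * j), (X : ℤ⟦X⟧) ^ i) := NN.sum _ _ fun i _ => NN.X_pow i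
  have n2 : NN (∑ i ∈ range (j + 1), ((X : ℤ⟦X⟧) ^ 2) ^ i) := NN.sum _ _ fun i _ => by
    rw [← pow_mul]
    exact NN.X_pow _
  set g1 : ℤ⟦X⟧ := ∑ i ∈ range (2 * j), X ^ i with hg1
  set g2 : ℤ⟦X⟧ := ∑ i ∈ range (j + 1), (X ^ 2) ^ i with hg2
  have key : (X ^ B - X ^ (B + 2 * j + 1) + 2 * (X ^ (B + u + 1) - X ^ (B + u + 2 * j + 3)) -
      (X ^ (B + u) - X ^ (B + u + 2 * j + 2)) -
      (X ^ (B + u + 2) - X ^ (B + u + 2 * j + 4))) * H =
      X ^ (B + 1) * g1 * ((1 - X) * H) + X ^ B * ((1 - X ^ u) * ((1 - X) * H)) +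
      X ^ (B + u) * (X ^ (2 * j + 2) * ((1 - X) * H) +
        X * (g2 * ((1 - X ^ 2) * ((1 - X) * H)))) := by
    have h3 : ((X : ℤ⟦X⟧) ^ 2) ^ (j + 1) = X ^ (2 * j) * X ^ 2 := by
      rw [← pow_mul, ← pow_add]
      congr 1
    rw [h3] at h2
    simp only [pow_add]
    linear_combination (-(X ^ B * X * H)) * h1 - (X ^ B * X ^ u * X * (1 - X) * H) * h2
  rw [key]
  refine ((((NN.X_pow _).mul n1).mul hU).add ((NN.X_pow _).mul hUt)).add
    ((NN.X_pow _).mul (((NN.X_pow _).mul hU).add (NN.X.mul (n2.mul hU2))))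

theorem sum_pair (f : ℕ → ℤ⟦X⟧) (N : ℕ) :
    ∑ i ∈ Icc 1 (2 * N), f i = ∑ j ∈ range N, (f (2 * j + 1) + f (2 * j + 2)) := by
  induction N with
  | zero => simp
  | succ N ih =>
    rw [sum_range_succ, ← ih, show 2 * (N + 1) = 2 * N + 1 + 1 by ring,
      sum_Icc_succ_top (by omega), sum_Icc_succ_top (by omega)]
    ring

theorem sum_shift (f : ℕ → ℤ⟦X⟧) (N : ℕ) :
    ∑ i ∈ Icc 1 N, f i = ∑ j ∈ range N, f (j + 1) := by
  rw [range_eq_Ico, sum_Ico_add' f 0 N 1]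
  rfl

/-- the difference of the correction terms, times the generating function -/
theorem NN_C (t : ℕ) (ht : 3 ≤ t) (N : ℕ) :
    NN ((C t N - C (t + 1) N) * G (fun i => ¬ t ∣ i)) := by
  obtain ⟨u, rfl⟩ : ∃ u, t = u + 1 := ⟨t - 1, by omega⟩
  have hdvd : ∀ s, 1 ≤ s → s < u + 1 → ¬ (u + 1) ∣ s := fun s h1 h2 h3 =>
    absurd (Nat.le_of_dvd (by omega) h3) (by omega)
  have hU : (1 - X) * G (fun i => ¬ (u + 1) ∣ i) =
      G (fun i => ¬ (u + 1) ∣ i ∧ i ≠ 1) := by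
    have := G_sub (fun i => ¬ (u + 1) ∣ i) 1 le_rfl (hdvd 1 le_rfl (by omega))
    rwa [pow_one] at this
  have hU2 : (1 - X ^ 2) * ((1 - X) * G (fun i => ¬ (u + 1) ∣ i)) =
      G (fun i => (¬ (u + 1) ∣ i ∧ i ≠ 1) ∧ i ≠ 2) := by
    rw [hU]
    exact G_sub _ 2 (by norm_num) ⟨hdvd 2 (by norm_num) (by omega), by norm_num⟩
  have hUt : (1 - X ^ u) * ((1 - X) * G (fun i => ¬ (u + 1) ∣ i)) =
      G (fun i => (¬ (u + 1) ∣ i ∧ i ≠ 1) ∧ i ≠ u) := by
    rw [hU]
    exact G_sub _ u (by omega) ⟨hdvd u (by omega) (by omega), by omega⟩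
  have n0 : NN ((1 - X) * G (fun i => ¬ (u + 1) ∣ i)) := hU ▸ NN_G _
  have n2 : NN ((1 - X ^ 2) * ((1 - X) * G (fun i => ¬ (u + 1) ∣ i))) := hU2 ▸ NN_G _
  have nt : NN ((1 - X ^ u) * ((1 - X) * G (fun i => ¬ (u + 1) ∣ i))) := hUt ▸ NN_G _
  unfold C
  rw [sum_pair, sum_pair, sum_shift, sum_shift, ← sum_add_distrib, ← sum_add_distrib,
    ← sum_sub_distrib, sum_mul]
  refine NN.sum _ _ fun j _ => ?_
  have := NN_E u ((u + 1) * (2 * j + 1)) j _ n0 n2 nt
  convert this using 2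
  have e1 : (u + 1 + 1) * (2 * j + 1) = (u + 1) * (2 * j + 1) + 2 * j + 1 := by ring
  have e2 : (u + 1) * (2 * j + 2) = (u + 1) * (2 * j + 1) + u + 1 := by ring
  have e3 : (u + 1 + 1) * (2 * j + 2) = (u + 1) * (2 * j + 1) + u + 2 * j + 3 := by ring
  have e4 : 2 * (u + 1) * (j + 1) = (u + 1) * (2 * j + 1) + u + 1 := by ring
  have e5 : 2 * (u + 1) * (j + 1) - 1 = (u + 1) * (2 * j + 1) + u := by rw [e4]; rfl
  have e6 : 2 * (u + 1 + 1) * (j + 1) = (u + 1) * (2 * j + 1) + u + 2 * j + 3 := by ring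
  have e7 : 2 * (u + 1 + 1) * (j + 1) - 1 = (u + 1) * (2 * j + 1) + u + 2 * j + 2 := by
    rw [e6]; rfl
  rw [e5, e7, e1, e2, e3, e4, e6]
  have e8 : (u + 1) * (2 * j + 1) + u + 1 + 1 = (u + 1) * (2 * j + 1) + u + 2 := by ring
  have e9 : (u + 1) * (2 * j + 1) + u + 2 * j + 3 + 1 =
    (u + 1) * (2 * j + 1) + u + 2 * j + 4 := by ring
  rw [e8, e9]
  ring

/-- the first part of the difference -/
theorem first_part (t : ℕ) (ht : 3 ≤ t) (n : ℕ) :
    0 ≤ ∑ m ∈ range (n + 1), (al m - c (t + 1) m) * (#(S t (n - m)) : ℤ) := by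
  have h0 : ∀ m, (0 : ℤ) ≤ #(S t (n - m)) := fun m => by positivity
  rcases Nat.even_or_odd t with hev | hodd
  · -- `t` even, `T = t + 1` odd
    obtain ⟨r, hr⟩ := hev
    have ht4 : 4 ≤ t := by omega
    -- lower bound for the coefficients
    have hlow : ∀ m, (if Even m ∧ ¬ (t + 1) ∣ m then 2 else 0 : ℤ) -
        (if Odd m ∧ (t + 1) ∣ m then 1 else 0) ≤ al m - c (t + 1) m := by
      intro m
      unfold al c
      rcases Nat.even_or_odd' m with ⟨k, rfl | rfl⟩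
      · have e7 : Even (2 * k) := even_two_mul k
        have e8 : ¬ Odd (2 * k) := by
          rw [Nat.not_odd_iff_even]
          exact e7
        have e4 : ¬ 2 * (t + 1) ∣ 2 * k + 1 := by
          rintro ⟨a, ha⟩
          have : 2 * k + 1 = 2 * ((t + 1) * a) := by rw [ha]; ring
          omega
        have e5 : ¬ (2 ≤ 2 * k ∧ 2 * (t + 1) ∣ 2 * k - 1) := by
          rintro ⟨h3, a, ha⟩
          have : 2 * k - 1 = 2 * ((t + 1) * a) := by rw [ha]; ring
          omega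
        have e6 : 2 * (t + 1) ∣ 2 * k ↔ (t + 1) ∣ k := Nat.mul_dvd_mul_iff_left (by norm_num)
        have e9 : (t + 1) ∣ 2 * k → (t + 1) ∣ k := by
          intro h
          refine Nat.Coprime.dvd_of_dvd_mul_left ?_ h
          rw [Nat.coprime_comm, Nat.coprime_two_left, hr]
          exact ⟨r, by ring⟩
        rw [if_neg e4, if_neg e5]
        simp only [e6, e7, e8]
        by_cases hk : 1 ≤ k
        · have hk2 : 2 ≤ 2 * k := by omega
          have hk3 : 1 ≤ 2 * k := by omega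
          by_cases h3 : (t + 1) ∣ k
          · have h4 : (t + 1) ∣ 2 * k := Dvd.dvd.mul_left h3 2
            simp [hk2, hk3, h3, h4]
          · have h4 : ¬ (t + 1) ∣ 2 * k := fun h => h3 (e9 h)
            simp [hk2, hk3, h3, h4]
        · obtain rfl : k = 0 := by omega
          simp
      · have e7 : ¬ Even (2 * k + 1) := by
          rw [Nat.not_even_iff_odd]
          exact odd_two_mul_add_one k
        have e8 : Odd (2 * k + 1) := odd_two_mul_add_one k
        have e6 : ¬ 2 * (t + 1) ∣ 2 * k + 1 := by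
          rintro ⟨a, ha⟩
          have : 2 * k + 1 = 2 * ((t + 1) * a) := by rw [ha]; ring
          omega
        have e9 : 1 ≤ 2 * k + 1 := by omega
        simp only [e6, e7, e8, e9, false_and, and_false, true_and, if_false]
        split_ifs <;> norm_num
    refine le_trans ?_ (sum_le_sum fun m _ => mul_le_mul_of_nonneg_right (hlow m) (h0 m))
    simp only [sub_mul, sum_sub_distrib]
    rw [sub_nonneg]
    simp only [ite_mul, one_mul, zero_mul]
    rw [← sum_filter, ← sum_filter]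
    have hle : ∀ m ∈ {m ∈ range (n + 1) | Odd m ∧ (t + 1) ∣ m}, (#(S t (n - m)) : ℤ) ≤
        2 * #(S t (n - (m - 1))) + 2 * #(S t (n - (m - 3))) := by
      intro m hm
      rw [mem_filter, mem_range] at hm
      have h1 : t + 1 ≤ m := Nat.le_of_dvd (by
        rcases hm.2.1 with ⟨a, ha⟩
        omega) hm.2.2
      have h2 := card_S_le t (n - m) (by omega)
      rw [show n - m + 1 = n - (m - 1) by omega, show n - m + 3 = n - (m - 3) by omega] at h2
      have h3 : #(S t (n - m)) ≤ 2 * #(S t (n - (m - 1))) + 2 * #(S t (n - (m - 3))) := by omega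
      exact_mod_cast h3
    refine (sum_le_sum hle).trans ?_
    rw [sum_add_distrib]
    have hbig : ∀ m ∈ {m ∈ range (n + 1) | Odd m ∧ (t + 1) ∣ m}, t + 1 ≤ m := by
      intro m hm
      rw [mem_filter, mem_range] at hm
      exact Nat.le_of_dvd (by
        rcases hm.2.1 with ⟨a, ha⟩
        omega) hm.2.2
    have i1 : ∑ m ∈ {m ∈ range (n + 1) | Odd m ∧ (t + 1) ∣ m}, (2 * #(S t (n - (m - 1))) : ℤ) =
        ∑ m ∈ ({m ∈ range (n + 1) | Odd m ∧ (t + 1) ∣ m}).image (fun m => m - 1),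
          (2 * #(S t (n - m)) : ℤ) := by
      rw [sum_image]
      intro a ha b hb hab
      have := hbig a ha
      have := hbig b hb
      simp only at hab
      omega
    have i2 : ∑ m ∈ {m ∈ range (n + 1) | Odd m ∧ (t + 1) ∣ m}, (2 * #(S t (n - (m - 3))) : ℤ) =
        ∑ m ∈ ({m ∈ range (n + 1) | Odd m ∧ (t + 1) ∣ m}).image (fun m => m - 3),
          (2 * #(S t (n - m)) : ℤ) := by
      rw [sum_image]
      intro a ha b hb hab
      have := hbig a ha
      have := hbig b hb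
      simp only at hab
      omega
    rw [i1, i2, ← sum_union]
    · refine sum_le_sum_of_subset_of_nonneg ?_ fun m _ _ => by positivity
      intro m hm
      rw [mem_union, mem_image, mem_image] at hm
      rcases hm with ⟨a, ha, rfl⟩ | ⟨a, ha, rfl⟩
      · have h1 := hbig a ha
        rw [mem_filter, mem_range] at ha ⊢
        obtain ⟨ha1, ⟨b, hb⟩, ha3⟩ := ha
        refine ⟨by omega, ⟨b, by omega⟩, fun h => ?_⟩
        have h2 := (Nat.dvd_sub ha3 h)
        rw [show a - (a - 1) = 1 by omega] at h2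
        have := Nat.le_of_dvd one_pos h2
        omega
      · have h1 := hbig a ha
        rw [mem_filter, mem_range] at ha ⊢
        obtain ⟨ha1, ⟨b, hb⟩, ha3⟩ := ha
        refine ⟨by omega, ⟨b - 1, by omega⟩, fun h => ?_⟩
        have h2 := (Nat.dvd_sub ha3 h)
        rw [show a - (a - 3) = 3 by omega] at h2
        have := Nat.le_of_dvd (by norm_num) h2
        omega
    · rw [disjoint_left]
      intro m hm hm'
      rw [mem_image] at hm hm'
      obtain ⟨a, ha, rfl⟩ := hm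
      obtain ⟨b, hb, hab⟩ := hm'
      have h1 := hbig a ha
      have h2 := hbig b hb
      rw [mem_filter] at ha hb
      have h3 := Nat.dvd_sub hb.2.2 ha.2.2
      rw [show b - a = 2 by omega] at h3
      have := Nat.le_of_dvd (by norm_num) h3
      omega
  · -- `t` odd, `T = t + 1` even: all coefficients are nonnegative
    refine sum_nonneg fun m _ => mul_nonneg ?_ (h0 m)
    obtain ⟨r, hr⟩ := hodd
    unfold al c
    rcases Nat.even_or_odd' m with ⟨k, rfl | rfl⟩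
    · have e7 : Even (2 * k) := even_two_mul k
      have e4 : ¬ 2 * (t + 1) ∣ 2 * k + 1 := by
        rintro ⟨a, ha⟩
        have : 2 * k + 1 = 2 * ((t + 1) * a) := by rw [ha]; ring
        omega
      have e5 : ¬ (2 ≤ 2 * k ∧ 2 * (t + 1) ∣ 2 * k - 1) := by
        rintro ⟨h3, a, ha⟩
        have : 2 * k - 1 = 2 * ((t + 1) * a) := by rw [ha]; ring
        omega
      rw [if_neg e4, if_neg e5]
      by_cases hk : 1 ≤ k
      · have hk2 : 2 ≤ 2 * k := by omega
        simp only [hk2, e7, true_and, if_true]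
        split_ifs <;> norm_num
      · obtain rfl : k = 0 := by omega
        simp
    · have e6 : ¬ 2 * (t + 1) ∣ 2 * k + 1 := by
        rintro ⟨a, ha⟩
        have : 2 * k + 1 = 2 * ((t + 1) * a) := by rw [ha]; ring
        omega
      have e10 : ¬ (t + 1) ∣ 2 * k + 1 := by
        rintro ⟨a, ha⟩
        have : 2 * k + 1 = 2 * ((r + 1) * a) := by rw [ha, hr]; ring
        omega
      have e7 : ¬ Even (2 * k + 1) := by
        rw [Nat.not_even_iff_odd]
        exact odd_two_mul_add_one k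
      simp only [e6, e7, e10, and_false, if_false]
      split_ifs <;> norm_num

/-- **The total number of hooks of length two in the `t`-regular partitions of `n` increases with
`t ≥ 3`.** -/
theorem main (t : ℕ) (ht : 3 ≤ t) (n : ℕ) :
    hooks (fun i => ¬ t ∣ i) 2 n ≤ hooks (fun i => ¬ (t + 1) ∣ i) 2 n := by
  have h1 : (0 : ℤ) ≤ hooks (fun i => ¬ (t + 1) ∣ i) 2 n - hooks (fun i => ¬ t ∣ i) 2 n := by
    rw [hooks_eq, hooks_eq]
    have e1 : A (fun i => ¬ (t + 1) ∣ i) n * G (fun i => ¬ (t + 1) ∣ i) =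
        A (fun i => ¬ (t + 1) ∣ i) n * (G (fun i => ¬ (t + 1) ∣ i) - G (fun i => ¬ t ∣ i)) +
        (A (fun i => ¬ (t + 1) ∣ i) n - A (fun i => ¬ t ∣ i) n) * G (fun i => ¬ t ∣ i) +
        A (fun i => ¬ t ∣ i) n * G (fun i => ¬ t ∣ i) := by ring
    rw [e1, map_add, map_add, add_sub_cancel_right]
    refine add_nonneg ?_ ?_
    · rw [coeff_mul, Finset.Nat.sum_antidiagonal_eq_sum_range_succ_mk]
      have h2 := first_part t ht n
      refine h2.trans (le_of_eq (sum_congr rfl fun m hm => ?_))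
      rw [mem_range] at hm
      rw [coeff_A (t + 1) (by omega) n m (by omega), card_S t (n - m) (by omega)]
    · have h2 := NN_C t ht n n
      refine h2.trans (le_of_eq ?_)
      rw [coeff_mul, coeff_mul]
      refine sum_congr rfl fun p hp => ?_
      rw [HasAntidiagonal.mem_antidiagonal] at hp
      rw [map_sub, map_sub, coeff_C t (by omega) n p.1 (by omega),
        coeff_C (t + 1) (by omega) n p.1 (by omega), coeff_A (t + 1) (by omega) n p.1 (by omega),
        coeff_A t (by omega) n p.1 (by omega)]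
      ring
  omega

end Helper3K9.HK
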