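import Pool.Agent.Helper3K9.HK.Def

/-!
# Generating functions of restricted partitions
-/

set_option autoImplicit false

namespace Helper3K9.HK

open Finset PowerSeries Nat.Partition

/-- all coefficients are nonnegative -/
def NN (f : ℤ⟦X⟧) : Prop := ∀ n, 0 ≤ coeff n f

theorem NN.add {f g : ℤ⟦X⟧} (hf : NN f) (hg : NN g) : NN (f + g) := fun n => by
  rw [map_add]
  exact add_nonneg (hf n) (hg n)

theorem NN.mul {f g : ℤ⟦X⟧} (hf : NN f) (hg : NN g) : NN (f * g) := fun n => by
  rw [coeff_mul]
  exact sum_nonneg fun p _ => mul_nonneg (hf _) (hg _)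

theorem NN.zero : NN 0 := fun n => by simp

theorem NN.X_pow (k : ℕ) : NN (X ^ k) := fun n => by
  rw [coeff_X_pow]
  split_ifs <;> norm_num

theorem NN.X : NN X := by
  simpa using NN.X_pow 1

theorem NN.one : NN 1 := by
  simpa using NN.X_pow 0

theorem NN.sum {ι : Type} (s : Finset ι) (f : ι → ℤ⟦X⟧) (h : ∀ i ∈ s, NN (f i)) :
    NN (∑ i ∈ s, f i) := fun n => by
  rw [map_sum]
  exact sum_nonneg fun i hi => h i hi n

/-- the generating function of the partitions with all parts in `P` -/
noncomputable def G (P : ℕ → Prop) [DecidablePred P] : ℤ⟦X⟧ :=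
  PowerSeries.mk fun n => (#(restricted n P) : ℤ)

theorem coeff_G (P : ℕ → Prop) [DecidablePred P] (n : ℕ) :
    coeff n (G P) = #(restricted n P) := coeff_mk _ _

theorem NN_G (P : ℕ → Prop) [DecidablePred P] : NN (G P) := fun n => by
  rw [coeff_G]
  positivity

/-- partitions with parts in `P` which contain `s` with multiplicity at least `k` -/
theorem card_count_ge (P : ℕ → Prop) [DecidablePred P] (s k n : ℕ) (hs : 1 ≤ s)
    (hP : P s) :
    (#{l ∈ restricted n P | k ≤ l.parts.count s} : ℤ) = coeff n (X ^ (k * s) * G P) := by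
  rw [coeff_X_pow_mul']
  split_ifs with h
  · rw [coeff_G]
    norm_cast
    symm
    refine card_bij (fun l _ => (⟨l.parts + Multiset.replicate k s, ?_, ?_⟩ : n.Partition))
      ?_ ?_ ?_
    · intro i hi
      rw [Multiset.mem_add, Multiset.mem_replicate] at hi
      rcases hi with hi | ⟨_, rfl⟩
      · exact l.parts_pos hi
      · exact hs
    · rw [Multiset.sum_add, l.parts_sum, Multiset.sum_replicate, smul_eq_mul]
      omega
    · intro l hl
      simp only [restricted, mem_filter, mem_univ, true_and] at hl ⊢
      refine ⟨fun i hi => ?_, ?_⟩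
      · rw [Multiset.mem_add, Multiset.mem_replicate] at hi
        rcases hi with hi | ⟨_, rfl⟩
        · exact hl i hi
        · exact hP
      · rw [Multiset.count_add, Multiset.count_replicate_self]
        omega
    · intro l _ l' _ h
      have h1 := congrArg Nat.Partition.parts h
      simp only [add_left_inj] at h1
      exact Nat.Partition.ext h1
    · intro l hl
      simp only [restricted, mem_filter, mem_univ, true_and] at hl
      have hle : Multiset.replicate k s ≤ l.parts := Multiset.le_count_iff_replicate_le.1 hl.2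
      have hsum : (l.parts - Multiset.replicate k s).sum = n - k * s := by
        have h1 : (l.parts - Multiset.replicate k s + Multiset.replicate k s).sum = n := by
          rw [tsub_add_cancel_of_le hle, l.parts_sum]
        rw [Multiset.sum_add, Multiset.sum_replicate, smul_eq_mul] at h1
        omega
      refine ⟨⟨l.parts - Multiset.replicate k s, ?_, hsum⟩, ?_, ?_⟩
      · intro i hi
        exact l.parts_pos (Multiset.mem_of_le tsub_le_self hi)
      · simp only [restricted, mem_filter, mem_univ, true_and]
        intro i hi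
        exact hl.1 i (Multiset.mem_of_le tsub_le_self hi)
      · apply Nat.Partition.ext
        exact tsub_add_cancel_of_le hle
  · norm_cast
    rw [card_eq_zero, filter_eq_empty_iff]
    intro l _ hl
    apply h
    have hle : Multiset.replicate k s ≤ l.parts := Multiset.le_count_iff_replicate_le.1 hl
    have h1 : (l.parts - Multiset.replicate k s + Multiset.replicate k s).sum = n := by
      rw [tsub_add_cancel_of_le hle, l.parts_sum]
    rw [Multiset.sum_add, Multiset.sum_replicate, smul_eq_mul] at h1
    omega

theorem card_mem (P : ℕ → Prop) [DecidablePred P] (s n : ℕ) (hs : 1 ≤ s) (hP : P s) :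
    (#{l ∈ restricted n P | s ∈ l.parts} : ℤ) = coeff n (X ^ s * G P) := by
  have := card_count_ge P s 1 n hs hP
  rw [one_mul] at this
  rw [← this]
  simp only [Multiset.one_le_count_iff_mem]

/-- removing the part `s` from the list of allowed parts -/
theorem G_sub (P : ℕ → Prop) [DecidablePred P] (s : ℕ) (hs : 1 ≤ s) (hP : P s) :
    (1 - X ^ s) * G P = G (fun i => P i ∧ i ≠ s) := by
  rw [sub_mul, one_mul, sub_eq_iff_eq_add]
  ext n
  rw [map_add, ← card_mem P s n hs hP, coeff_G, coeff_G]
  norm_cast
  rw [add_comm]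
  rw [← card_filter_add_card_filter_not (s := restricted n P) (fun l => s ∈ l.parts)]
  congr 2
  ext l
  simp only [restricted, mem_filter, mem_univ, true_and]
  constructor
  · rintro ⟨h1, h2⟩ i hi
    exact ⟨h1 i hi, fun h => h2 (h ▸ hi)⟩
  · intro h
    exact ⟨fun i hi => (h i hi).1, fun h2 => (h s h2).2 rfl⟩

/-- partitions with parts in `P` which contain `s` but not `r` -/
theorem card_mem_not_mem (P : ℕ → Prop) [DecidablePred P] (s r n : ℕ) (hs : 1 ≤ s) (hP : P s)
    (hr : 1 ≤ r) (hrs : r ≠ s) :
    (#{l ∈ restricted n P | s ∈ l.parts ∧ r ∉ l.parts} : ℤ) =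
      coeff n (X ^ s * ((1 - if P r then X ^ r else 0) * G P)) := by
  split_ifs with h
  · rw [G_sub P r hr h, ← card_mem _ s n hs ⟨hP, hrs.symm⟩]
    norm_cast
    congr 1
    ext l
    simp only [restricted, mem_filter, mem_univ, true_and]
    constructor
    · rintro ⟨h1, h2, h3⟩
      exact ⟨fun i hi => ⟨h1 i hi, fun h => h3 (h ▸ hi)⟩, h2⟩
    · rintro ⟨h1, h2⟩
      exact ⟨fun i hi => (h1 i hi).1, h2, fun h3 => (h1 r h3).2 rfl⟩
  · rw [sub_zero, one_mul, ← card_mem _ s n hs hP]
    norm_cast
    congr 1
    ext l
    simp only [restricted, mem_filter, mem_univ, true_and]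
    constructor
    · rintro ⟨h1, h2, h3⟩
      exact ⟨h1, h2⟩
    · rintro ⟨h1, h2⟩
      exact ⟨h1, h2, fun h3 => h (h1 r h3)⟩

/-- the sum over all partitions of `n` with parts in `P` of the number of hooks of length `k` -/
def hooks (P : ℕ → Prop) [DecidablePred P] (k n : ℕ) : ℕ :=
  ∑ l ∈ restricted n P, #{c ∈ cells l | hook l c.1 c.2 = k}

/-- the polynomial `A` with `∑ hooks n X^n = A * G P`, up to degree `N` -/
noncomputable def A (P : ℕ → Prop) [DecidablePred P] (N : ℕ) : ℤ⟦X⟧ :=
  (∑ s ∈ Icc 2 N, if P s then X ^ s * (1 - if P (s - 1) then X ^ (s - 1) else 0) else 0) +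
    ∑ s ∈ Icc 1 N, if P s then X ^ (2 * s) else 0

theorem hooks_eq (P : ℕ → Prop) [DecidablePred P] (n : ℕ) :
    (hooks P 2 n : ℤ) = coeff n (A P n * G P) := by
  unfold hooks A
  have h1 : ∀ l : n.Partition, #{c ∈ cells l | hook l c.1 c.2 = ((2 : ℕ) : ℤ)} =
      #{s ∈ Icc 2 n | s ∈ l.parts ∧ s - 1 ∉ l.parts} + #{s ∈ Icc 1 n | 2 ≤ l.parts.count s} :=
    fun l => card_hook_two l
  rw [sum_congr rfl fun l _ => h1 l, sum_add_distrib, add_mul, map_add]
  push_cast
  congr 1
  · rw [sum_mul, map_sum]
    simp only [card_filter]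
    push_cast
    rw [sum_comm]
    refine sum_congr rfl fun s hs => ?_
    rw [mem_Icc] at hs
    split_ifs with h h'
    · have h2 := card_mem_not_mem P s (s - 1) n (by omega) h (by omega) (by omega)
      rw [if_pos h'] at h2
      rw [mul_assoc, ← h2, card_filter]
      push_cast
      rfl
    · have h2 := card_mem_not_mem P s (s - 1) n (by omega) h (by omega) (by omega)
      rw [if_neg h'] at h2
      rw [mul_assoc, ← h2, card_filter]
      push_cast
      rfl
    · rw [zero_mul, map_zero]
      refine sum_eq_zero fun l hl => ?_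
      simp only [restricted, mem_filter, mem_univ, true_and] at hl
      rw [if_neg]
      rintro ⟨h2, -⟩
      exact h (hl s h2)
  · rw [sum_mul, map_sum]
    simp only [card_filter]
    push_cast
    rw [sum_comm]
    refine sum_congr rfl fun s hs => ?_
    rw [mem_Icc] at hs
    split_ifs with h
    · rw [← card_count_ge P s 2 n (by omega) h, card_filter]
      push_cast
      rfl
    · rw [zero_mul, map_zero]
      refine sum_eq_zero fun l hl => ?_
      simp only [restricted, mem_filter, mem_univ, true_and] at hl
      rw [if_neg]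
      intro h2
      exact h (hl s (Multiset.one_le_count_iff_mem.1 (by omega)))

end Helper3K9.HK
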