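import Pool.Agent.Helper3K9.HK.PS

/-!
# Partitions with largest multiplicity exactly `t`
-/

set_option autoImplicit false

namespace Helper3K9.HK

open Finset PowerSeries Nat.Partition

open scoped Classical in
/-- the partitions of `k` in which the largest multiplicity is `t` -/
noncomputable def S (t k : ℕ) : Finset k.Partition :=
  {l | (∀ i, l.parts.count i ≤ t) ∧ ∃ i ∈ l.parts, l.parts.count i = t}

theorem mem_S (t k : ℕ) (l : k.Partition) :
    l ∈ S t k ↔ (∀ i, l.parts.count i ≤ t) ∧ ∃ i ∈ l.parts, l.parts.count i = t := by
  unfold S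
  simp

theorem card_S (t k : ℕ) (ht : 0 < t) :
    (#(S t k) : ℤ) = coeff k (G (fun i => ¬ (t + 1) ∣ i) - G (fun i => ¬ t ∣ i)) := by
  classical
  rw [map_sub, coeff_G, coeff_G, card_restricted_eq_card_countRestricted k (by omega),
    card_restricted_eq_card_countRestricted k ht, eq_sub_iff_add_eq]
  norm_cast
  rw [← card_filter_add_card_filter_not (s := countRestricted k (t + 1))
    (fun l => ∃ i ∈ l.parts, l.parts.count i = t)]
  congr 2
  · ext l
    rw [mem_S]
    simp only [countRestricted, mem_filter, mem_univ, true_and]
    refine and_congr_left fun _ => ⟨fun h i _ => by have := h i; omega, fun h i => ?_⟩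
    by_cases hi : i ∈ l.parts
    · have := h i hi
      omega
    · rw [Multiset.count_eq_zero.2 hi]
      omega
  · ext l
    simp only [countRestricted, mem_filter, mem_univ, true_and]
    constructor
    · intro h
      refine ⟨fun i hi => (h i hi).trans (by omega), ?_⟩
      rintro ⟨i, hi, h2⟩
      have := h i hi
      omega
    · rintro ⟨h1, h2⟩ i hi
      have h3 := h1 i hi
      have h4 : l.parts.count i ≠ t := fun h => h2 ⟨i, hi, h⟩
      omega

theorem sup_mem (M : Multiset ℕ) (h : M ≠ 0) : M.sup ∈ M := by
  induction M using Multiset.induction_on with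
  | empty => exact absurd rfl h
  | cons a M ih =>
    rw [Multiset.sup_cons]
    by_cases h0 : M = 0
    · rw [h0]
      simp
    · rcases le_total a M.sup with h1 | h1
      · rw [sup_eq_right.2 h1]
        exact Multiset.mem_cons_of_mem (ih h0)
      · rw [sup_eq_left.2 h1]
        exact Multiset.mem_cons_self _ _

/-- adding a part -/
def addPart {k : ℕ} (l : k.Partition) (s : ℕ) (hs : 0 < s) : (k + s).Partition where
  parts := s ::ₘ l.parts
  parts_pos := by
    intro i hi
    rcases Multiset.mem_cons.1 hi with rfl | hi
    · exact hs
    · exact l.parts_pos hi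
  parts_sum := by
    rw [Multiset.sum_cons, l.parts_sum, add_comm]

/-- replacing the largest part `x` by `x + 1` -/
def incMax {k : ℕ} (l : k.Partition) (h : l.parts ≠ 0) : (k + 1).Partition where
  parts := (l.parts.sup + 1) ::ₘ l.parts.erase l.parts.sup
  parts_pos := by
    intro i hi
    rcases Multiset.mem_cons.1 hi with rfl | hi
    · omega
    · exact l.parts_pos (Multiset.mem_of_mem_erase hi)
  parts_sum := by
    have h1 := congrArg Multiset.sum (Multiset.cons_erase (sup_mem _ h))
    rw [Multiset.sum_cons, l.parts_sum] at h1
    rw [Multiset.sum_cons]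
    omega

theorem incMax_inj {k : ℕ} (l l' : k.Partition) (h : l.parts ≠ 0) (h' : l'.parts ≠ 0)
    (hh : incMax l h = incMax l' h') : l = l' := by
  have h1 : (l.parts.sup + 1) ::ₘ l.parts.erase l.parts.sup =
      (l'.parts.sup + 1) ::ₘ l'.parts.erase l'.parts.sup := congrArg Nat.Partition.parts hh
  have h2 : ∀ M : Multiset ℕ, ((M.sup + 1) ::ₘ M.erase M.sup).sup = M.sup + 1 := by
    intro M
    rw [Multiset.sup_cons, sup_eq_left]
    exact (Multiset.sup_mono (Multiset.erase_subset _ _)).trans (Nat.le_succ _)
  have h3 : l.parts.sup = l'.parts.sup := by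
    have := h2 l.parts
    rw [h1, h2] at this
    omega
  rw [h3, Multiset.cons_inj_right] at h1
  apply Nat.Partition.ext
  rw [← Multiset.cons_erase (sup_mem _ h), ← Multiset.cons_erase (sup_mem _ h'), h3, h1]

theorem card_S_le (t k : ℕ) (ht : 2 ≤ t) : #(S t k) ≤ 2 * #(S t (k + 1)) + #(S t (k + 3)) := by
  classical
  have hA : #{l ∈ S t k | l.parts.count 1 < t} ≤ #(S t (k + 1)) := by
    refine card_le_card_of_injOn (fun l => addPart l 1 one_pos) ?_ ?_
    · intro l hl
      simp only [coe_filter, Set.mem_ofPred_eq, mem_S] at hl
      simp only [mem_coe, mem_S]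
      obtain ⟨⟨h1, i, h2, h3⟩, h4⟩ := hl
      unfold addPart
      have hi : i ≠ 1 := by
        rintro rfl
        omega
      refine ⟨fun j => ?_, i, Multiset.mem_cons_of_mem h2, ?_⟩
      · simp only
        rw [Multiset.count_cons]
        have := h1 j
        split_ifs with h
        · subst h
          omega
        · omega
      · simp only
        rw [Multiset.count_cons, if_neg hi, h3, add_zero]
    · intro l _ l' _ h
      have h1 : (1 ::ₘ l.parts) = 1 ::ₘ l'.parts := congrArg Nat.Partition.parts h
      exact Nat.Partition.ext ((Multiset.cons_inj_right _).1 h1)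
  have hB : #{l ∈ S t k | ¬ l.parts.count 1 < t ∧ ∃ i ∈ l.parts, 2 ≤ i} ≤ #(S t (k + 1)) := by
    refine card_le_card_of_injOn (fun l => if h : l.parts ≠ 0 then incMax l h else
      addPart l 1 one_pos) ?_ ?_
    · intro l hl
      simp only [coe_filter, Set.mem_ofPred_eq, mem_S] at hl
      simp only [mem_coe, mem_S]
      obtain ⟨⟨h1, -⟩, h4, i, h5, h6⟩ := hl
      have h0 : l.parts ≠ 0 := by
        rintro h
        rw [h] at h5
        simp at h5
      have h7 : 2 ≤ l.parts.sup := h6.trans (Multiset.le_sup h5)
      have h8 : l.parts.count 1 = t := le_antisymm (h1 1) (by omega)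
      have h9 : l.parts.count (l.parts.sup + 1) = 0 := by
        rw [Multiset.count_eq_zero]
        intro h
        have := Multiset.le_sup h
        omega
      have h10 : (l.parts.erase l.parts.sup).count 1 = t := by
        rw [Multiset.count_erase_of_ne (by omega), h8]
      rw [dif_pos h0]
      unfold incMax
      refine ⟨fun j => ?_, 1, ?_, ?_⟩
      · simp only
        rw [Multiset.count_cons]
        have h11 : (l.parts.erase l.parts.sup).count j ≤ l.parts.count j :=
          Multiset.count_le_of_le _ (Multiset.erase_le _ _)
        have h12 := h1 j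
        split_ifs with h
        · subst h
          omega
        · omega
      · simp only
        apply Multiset.mem_cons_of_mem
        rw [← Multiset.one_le_count_iff_mem]
        omega
      · simp only
        rw [Multiset.count_cons, if_neg (by omega), h10, add_zero]
    · intro l hl l' hl' h
      simp only [coe_filter, Set.mem_ofPred_eq, mem_S] at hl hl'
      have h0 : l.parts ≠ 0 := by
        rintro h
        obtain ⟨-, -, i, h5, -⟩ := hl
        rw [h] at h5
        simp at h5
      have h0' : l'.parts ≠ 0 := by
        rintro h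
        obtain ⟨-, -, i, h5, -⟩ := hl'
        rw [h] at h5
        simp at h5
      simp only [dif_pos h0, dif_pos h0'] at h
      exact incMax_inj l l' h0 h0' h
  have hC : #{l ∈ S t k | ¬ l.parts.count 1 < t ∧ ¬ ∃ i ∈ l.parts, 2 ≤ i} ≤ #(S t (k + 3)) := by
    refine card_le_card_of_injOn (fun l => addPart l 3 (by norm_num)) ?_ ?_
    · intro l hl
      simp only [coe_filter, Set.mem_ofPred_eq, mem_S] at hl
      simp only [mem_coe, mem_S]
      obtain ⟨⟨h1, -⟩, h4, h5⟩ := hl
      have h8 : l.parts.count 1 = t := le_antisymm (h1 1) (by omega)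
      have h9 : l.parts.count 3 = 0 := by
        rw [Multiset.count_eq_zero]
        intro h
        exact h5 ⟨3, h, by norm_num⟩
      unfold addPart
      refine ⟨fun j => ?_, 1, ?_, ?_⟩
      · simp only
        rw [Multiset.count_cons]
        have := h1 j
        split_ifs with h
        · subst h
          omega
        · omega
      · simp only
        apply Multiset.mem_cons_of_mem
        rw [← Multiset.one_le_count_iff_mem]
        omega
      · simp only
        rw [Multiset.count_cons, if_neg (by omega), h8, add_zero]
    · intro l _ l' _ h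
      have h1 : (3 ::ₘ l.parts) = 3 ::ₘ l'.parts := congrArg Nat.Partition.parts h
      exact Nat.Partition.ext ((Multiset.cons_inj_right _).1 h1)
  have h1 := card_filter_add_card_filter_not (s := S t k) (fun l => l.parts.count 1 < t)
  have h2 := card_filter_add_card_filter_not
    (s := {l ∈ S t k | ¬ l.parts.count 1 < t}) (fun l => ∃ i ∈ l.parts, 2 ≤ i)
  rw [filter_filter, filter_filter] at h2
  omega

end Helper3K9.HK
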